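import Pool.Agent.helper67AL.Alg

set_option autoImplicit false

/-! Primeness of the twisted algebra. -/

namespace Pool.Agent.helper67AL

variable {Kf : Type} [Field Kf] [CharP Kf 3]

/-- a two-sided ideal, as a property of a submodule of `L` -/
def IsId (I : Submodule Kf (L Kf)) : Prop := ∀ a x : (L Kf), x ∈ I → mulA a x ∈ I ∧ mulA x a ∈ I

theorem e_even (i j : ℕ) : inv (e Kf i * e Kf j) = e Kf i * e Kf j := by
  rw [map_mul, inv_e, inv_e, neg_mul_neg]

theorem even_mul {a b : (L Kf)} (ha : inv a = a) (hb : inv b = b) : inv (a * b) = a * b := by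
  rw [map_mul, ha, hb]

theorem odd_odd {a b : (L Kf)} (ha : inv a = -a) (hb : inv b = -b) : inv (a * b) = a * b := by
  rw [map_mul, ha, hb, neg_mul_neg]

theorem even_odd {a b : (L Kf)} (ha : inv a = a) (hb : inv b = -b) : inv (a * b) = -(a * b) := by
  rw [map_mul, ha, hb, mul_neg]

theorem odd_even {a b : (L Kf)} (ha : inv a = -a) (hb : inv b = b) : inv (a * b) = -(a * b) := by
  rw [map_mul, ha, hb, neg_mul]

/-- an even element of an ideal, times any element -/
theorem IsId.mul_mem {I : Submodule Kf (L Kf)} (hI : IsId I) {a : (L Kf)} (ha : a ∈ I) (hea : inv a = a)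
    (u : (L Kf)) : a * u ∈ I := by
  have := (hI u a ha).2
  rwa [mulA_even_left hea] at this

/-- the derivation step inside an ideal -/
theorem IsId.D_mem {I : Submodule Kf (L Kf)} (hI : IsId I) {a y z : (L Kf)} (ha : a ∈ I)
    (hea : inv a = a) (hy : inv y = -y) (hz : inv z = -z) : D a * (y * z) ∈ I := by
  -- (a y) * z = a y z - D(a y) z + a y D z
  have h1 : a * y ∈ I := hI.mul_mem ha hea y
  have h2 := (hI z _ h1).2
  rw [mulA_odd (even_odd hea hy) hz, D_mul] at h2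
  have h3 : a * y * z ∈ I := by rw [mul_assoc]; exact hI.mul_mem ha hea _
  have h4 : a * y * D z ∈ I := by rw [mul_assoc]; exact hI.mul_mem ha hea _
  have h5 : a * D y * z ∈ I := by rw [mul_assoc]; exact hI.mul_mem ha hea _
  have h6 : D a * (y * z) = (a * y * z + a * y * D z - a * D y * z) - 
      (a * y * z - (D a * y + a * D y) * z + a * y * D z) := by noncomm_ring
  rw [h6]
  exact I.sub_mem (I.sub_mem (I.add_mem h3 h4) h5) h2

/-- `W n w`: `w` is a sum of products of `2 n` odd elements -/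
inductive W : ℕ → (L Kf) → Prop
  | one : W 0 1
  | zero (n : ℕ) : W n 0
  | add {n : ℕ} {w w' : (L Kf)} : W n w → W n w' → W n (w + w')
  | step {n : ℕ} {w y z : (L Kf)} : W n w → inv y = -y → inv z = -z → W (n + 1) (w * (y * z))

theorem W.even {n : ℕ} {w : (L Kf)} (h : W n w) : inv w = w := by
  induction h with
  | one => simp
  | zero n => simp
  | add _ _ h1 h2 => rw [map_add, h1, h2]
  | step _ hy hz h => exact even_mul h (odd_odd hy hz)

theorem W.D {n : ℕ} {w : (L Kf)} (h : W n w) : W n (D w) := by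
  induction h with
  | one => rw [D_one]; exact W.zero 0
  | zero n => rw [map_zero]; exact W.zero n
  | add _ _ h1 h2 => rw [map_add]; exact W.add h1 h2
  | step h' hy hz h => 
    rw [D_mul, D_mul, mul_add]
    exact W.add (W.step h hy hz) (W.add (W.step h' (odd_D hy) hz) (W.step h' hy (odd_D hz)))

theorem Dp_even {a : (L Kf)} (ha : inv a = a) (n : ℕ) : inv (Dp n a) = Dp n a := by
  induction n with
  | zero => exact ha
  | succ n ih => rw [Dp_succ]; exact even_D ih

theorem IsId.Dp_mem {I : Submodule Kf (L Kf)} (hI : IsId I) {a : (L Kf)} (ha : a ∈ I)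
    (hea : inv a = a) (n : ℕ) : ∀ w, W n w → Dp n a * w ∈ I := by
  induction n with
  | zero => 
    intro w _
    exact hI.mul_mem ha hea w
  | succ n ih =>
    intro w hw
    generalize hm : n + 1 = m at hw
    induction hw with
    | one => omega
    | zero n' => rw [mul_zero]; exact I.zero_mem
    | add _ _ h1 h2 => rw [mul_add]; exact I.add_mem (h1 hm) (h2 hm)
    | step h' hy hz h =>
      rename_i n' w' y z
      have hn : n = n' := by omega
      subst hn
      have hc := ih w' h'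
      have hce : inv (Dp n a * w') = Dp n a * w' := even_mul (Dp_even hea n) h'.even
      have h1 := hI.D_mem hc hce hy hz
      have h2 := ih _ h'.D
      have h2e : inv (Dp n a * D w') = Dp n a * D w' := even_mul (Dp_even hea n) h'.D.even
      have h3 := hI.mul_mem h2 h2e (y * z)
      rw [Dp_succ]
      have h4 : D (Dp n a) * (w' * (y * z)) = D (Dp n a * w') * (y * z) - Dp n a * D w' * (y * z) := by
        rw [D_mul]; noncomm_ring
      rw [h4]
      exact I.sub_mem h1 h3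

/-- a nonzero ideal contains a nonzero even element -/
theorem IsId.exists_even {I : Submodule Kf (L Kf)} (hI : IsId I) (h : I ≠ ⊥) :
    ∃ a ∈ I, inv a = a ∧ a ≠ 0 := by
  obtain ⟨u, hu, hu0⟩ := (Submodule.ne_bot_iff I).1 h
  by_cases hx : od u = 0
  · refine ⟨u, hu, ?_, hu0⟩
    have := ev_even u
    rwa [hx, sub_zero] at this
  · obtain ⟨K, hK⟩ := exists_LK (od u)
    -- the associator (u, b, y) = D b * x * y  with b = e K * e (K+1), y = e (K+3)
    obtain ⟨b, hb⟩ : ∃ b, b = e Kf K * e Kf (K + 1) := ⟨_, rfl⟩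
    obtain ⟨y, hy⟩ : ∃ y, y = e Kf (K + 3) := ⟨_, rfl⟩
    have hbe : inv b = b := by rw [hb]; exact e_even _ _
    have hyo : inv y = -y := by rw [hy]; exact inv_e _
    have hDb : D b = e Kf K * e Kf (K + 2) := by
      rw [hb, D_mul, D_e, D_e, e_sq, zero_add]
    have h1 := (hI y _ (hI b _ hu).2).2
    have h2 := (hI (mulA b y) _ hu).2
    obtain ⟨a, ha⟩ : ∃ a, a = u - od u := ⟨_, rfl⟩
    obtain ⟨x, hx'⟩ : ∃ x, x = od u := ⟨_, rfl⟩
    have hae : inv a = a := by rw [ha]; exact ev_even u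
    have hxo : inv x = -x := by rw [hx']; exact od_odd u
    have hux : u = a + x := by rw [ha, hx']; abel
    have h3 : mulA (mulA u b) y - mulA u (mulA b y) = D b * (x * y) := by
      rw [mulA_even_right hbe, mulA_even_left hbe, hux]
      have e1 : (a + x) * b = (a * b) + (x * b) := by rw [add_mul]
      have e2 : b * y = 0 + b * y := by rw [zero_add]
      have e3 : y = 0 + y := by rw [zero_add]
      rw [e1, e2]
      nth_rewrite 1 [e3]
      rw [mulA_eq (even_mul hae hbe) (odd_even hxo hbe) (by simp) hyo, 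
        mulA_eq hae hxo (by simp) (even_odd hbe hyo)]
      have c1 := even_comm hbe x
      have c2 := even_comm (even_D hbe) x
      have c3 := even_comm (even_D hbe) (x * y)
      have c4 := even_comm hbe (D x)
      have t := three_eq (x * (D b * y))
      have c5 : D b * (x * y) = x * (D b * y) := by rw [← mul_assoc, c2, mul_assoc]
      rw [c5]
      refine sub_eq_zero.1 (Eq.trans (b := -(x * (D b * y) + x * (D b * y) + x * (D b * y))) ?_ 
        (by rw [t]; simp))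
      simp only [D_mul]
      noncomm_ring
    have h4 : D b * (x * y) ∈ I := by rw [← h3]; exact I.sub_mem h1 h2
    refine ⟨D b * (x * y), h4, even_mul (even_D hbe) (odd_odd hxo hyo), ?_⟩
    rw [← mul_assoc, even_comm (even_D hbe) x, hDb, hy, ← mul_assoc]
    have hK1 : x * e Kf K ∈ LK Kf (K + 1) := 
      Subalgebra.mul_mem _ (LK_mono (by omega) (hx' ▸ hK)) (e_mem (by omega))
    have n1 : x * e Kf K ≠ 0 := mul_e_ne (hx' ▸ hK) (hx' ▸ hx)
    have n2 : x * e Kf K * e Kf (K + 2) ≠ 0 := mul_e_ne (LK_mono (by omega) hK1) n1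
    exact mul_e_ne (Subalgebra.mul_mem _ (LK_mono (by omega) hK1) (e_mem (by omega))) n2

/-- products of distinct new generators -/
theorem exists_W {u : (L Kf)} (hu : u ≠ 0) (n : ℕ) : ∃ w, W n w ∧ u * w ≠ 0 := by
  induction n with
  | zero => exact ⟨1, W.one, by rwa [mul_one]⟩
  | succ n ih =>
    obtain ⟨w, hw, h⟩ := ih
    obtain ⟨K, hK⟩ := exists_LK (u * w)
    refine ⟨w * (e Kf K * e Kf (K + 1)), W.step hw (inv_e _) (inv_e _), ?_⟩
    have n1 : u * w * e Kf K ≠ 0 := mul_e_ne hK h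
    have hK1 : u * w * e Kf K ∈ LK Kf (K + 1) := 
      Subalgebra.mul_mem _ (LK_mono (by omega) hK) (e_mem (by omega))
    have n2 : u * w * e Kf K * e Kf (K + 1) ≠ 0 := mul_e_ne hK1 n1
    simpa only [mul_assoc] using n2

theorem prime {I J : Submodule Kf (L Kf)} (hI : IsId I) (hJ : IsId J)
    (h : ∀ x y : (L Kf), x ∈ I → y ∈ J → mulA x y = 0) : I = ⊥ ∨ J = ⊥ := by
  by_contra hcon
  rw [not_or] at hcon
  obtain ⟨a, ha, hea, ha0⟩ := hI.exists_even hcon.1
  obtain ⟨b, hb, heb, hb0⟩ := hJ.exists_even hcon.2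
  obtain ⟨K, hK⟩ := exists_LK a
  obtain ⟨q, hq⟩ := nonvan K a hK ha0 b hb0 0
  obtain ⟨n, hn⟩ : ∃ n, n = 3 ^ 0 * q := ⟨_, rfl⟩
  rw [← hn] at hq
  obtain ⟨w, hw, hw0⟩ := exists_W hq n
  apply hw0
  have h1 := h _ _ (hI.Dp_mem ha hea n w hw) hb
  rw [mulA_even_right heb] at h1
  rw [mul_assoc, even_comm heb w, ← mul_assoc, h1]

theorem ee_ne {i : ℕ} : e Kf i * e Kf (i + 1) ≠ 0 := by
  have h1 : (1 : (L Kf)) * e Kf i ≠ 0 := mul_e_ne (K := i) (Subalgebra.one_mem _) one_ne_zero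
  rw [one_mul] at h1
  exact mul_e_ne (K := i + 1) (e_mem (by omega)) h1

theorem noncomm : ∃ x y : (A Kf), x * y ≠ y * x := by
  refine ⟨(e Kf 0 : (L Kf)), (e Kf 1 : (L Kf)), fun h => ?_⟩
  change mulA (e Kf 0) (e Kf 1) = mulA (e Kf 1) (e Kf 0) at h
  rw [mulA_odd (inv_e _) (inv_e _), mulA_odd (inv_e _) (inv_e _), D_e, D_e, zero_add, e_sq] at h
  have h1 := odd_anti (Kf := Kf) (inv_e 1) (inv_e 0)
  have h2 := odd_anti (Kf := Kf) (inv_e (1 + 1)) (inv_e 0)
  rw [h1, h2, sub_zero, add_zero, sub_neg_eq_add] at h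
  have h3 : e Kf 0 * e Kf 1 = -(e Kf 0 * e Kf 1) := add_right_cancel h
  have h4 := three_eq (e Kf 0 * e Kf 1)
  have h5 : e Kf 0 * e Kf 1 + e Kf 0 * e Kf 1 = 0 := by nth_rewrite 1 [h3]; simp
  rw [h5, zero_add] at h4
  exact ee_ne (i := 0) h4

theorem nonassoc : ∃ x y z : (A Kf), (x * y) * z ≠ x * (y * z) := by
  refine ⟨(e Kf 0 * e Kf 1 : (L Kf)), (e Kf 3 : (L Kf)), (e Kf 4 : (L Kf)), fun h => ?_⟩
  change mulA (mulA (e Kf 0 * e Kf 1) (e Kf 3)) (e Kf 4) = mulA (e Kf 0 * e Kf 1) (mulA (e Kf 3) (e Kf 4)) at h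
  have hee := e_even (Kf := Kf) 0 1
  rw [mulA_even_left hee, mulA_even_left hee, mulA_odd (even_odd hee (inv_e 3)) (inv_e 4),
    mulA_odd (inv_e 3) (inv_e 4), D_mul, D_mul (e Kf 0), D_e, D_e, D_e, D_e, zero_add, e_sq, zero_add] at h
  have h1 : e Kf 0 * e Kf (1 + 1) * e Kf 3 * e Kf 4 = 0 := by
    have : e Kf 0 * e Kf (1 + 1) * e Kf 3 * e Kf 4 = 
      -((e Kf 0 * e Kf 1 * e Kf 3 * e Kf 4 - (e Kf 0 * e Kf (1 + 1) * e Kf 3 + e Kf 0 * e Kf 1 * e Kf (3 + 1)) * e Kf 4 + e Kf 0 * e Kf 1 * e Kf 3 * e Kf (4 + 1)) - 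
        e Kf 0 * e Kf 1 * (e Kf 3 * e Kf 4 - e Kf (3 + 1) * e Kf 4 + e Kf 3 * e Kf (4 + 1))) := by noncomm_ring
    rw [this, h, sub_self, neg_zero]
  have n1 : (1 : (L Kf)) * e Kf 0 ≠ 0 := mul_e_ne (K := 0) (Subalgebra.one_mem _) one_ne_zero
  rw [one_mul] at n1
  have n2 : e Kf 0 * e Kf (1 + 1) ≠ 0 := mul_e_ne (K := 2) (e_mem (by omega)) n1
  have n3 : e Kf 0 * e Kf (1 + 1) * e Kf 3 ≠ 0 := 
    mul_e_ne (K := 3) (Subalgebra.mul_mem _ (e_mem (by omega)) (e_mem (by omega))) n2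
  exact mul_e_ne (K := 4) (Subalgebra.mul_mem _ (Subalgebra.mul_mem _ (e_mem (by omega)) 
    (e_mem (by omega))) (e_mem (by omega))) n3 h1

theorem abs_zero_aux (x : (L Kf)) : mulA (mulA (e Kf 0 * e Kf 1) x) (e Kf 0 * e Kf 1) = 0 := by
  have hee := e_even (Kf := Kf) 0 1
  have h0 : (e Kf 0 * e Kf 1) * (e Kf 0 * e Kf 1) = 0 := by
    rw [mul_assoc, ← mul_assoc (e Kf 1), odd_anti (inv_e 1) (inv_e 0), neg_mul, mul_assoc (e Kf 0), e_sq]
    simp
  rw [mulA_even_left hee, mulA_even_right hee, even_comm hee, mul_assoc, h0, mul_zero]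

theorem abs_zero : ∃ z : (A Kf), z ≠ 0 ∧ ∀ x : (A Kf), (z * x) * z = 0 :=
  ⟨(e Kf 0 * e Kf 1 : (L Kf)), ee_ne (i := 0), fun x => abs_zero_aux x⟩

end Pool.Agent.helper67AL
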